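import Pool.Agent.Helper35.HSF.StC

/-! Module FCV of the project HSF: finite time, convexity and comparability of the curvatures. -/

set_option autoImplicit false

namespace Helper94.HSF

open Helper35.HSF Helper35.MS Helper35.PI Helper35.PI2 Helper32.CL
open scoped ContDiff Manifold Topology ENNReal BigOperators
open MeasureTheory Set Filter

/-- the pinching does not depend on the sign of the normal -/
private theorem pinK_neg (hNEG : StNEG) {n : ℕ} {M : Type} [TopologicalSpace M]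
    [ChartedSpace (EE n) M] [IsManifold (𝓡 n) ∞ M] {F ν ν' : M → ℝ → EE (n + 2)}
    (hν : ν' = (fun q t => -ν q t)) {k t : ℝ} (h : PinK n k F ν t) : PinK n k F ν' t := by
  have hZ := (hNEG n M F ν ν' hν).2.2
  intro x z₁ h₁ z₂ h₂
  rw [(hZ x t).1] at h₁ h₂
  obtain ⟨w₁, hw₁, rfl⟩ := h₁
  obtain ⟨w₂, hw₂, rfl⟩ := h₂
  have h3 := h x w₁ hw₁ w₂ hw₂
  calc (1 - k) * (-w₁) ^ 2 - -w₁ * -w₂ = (1 - k) * w₁ ^ 2 - w₁ * w₂ := by ring
    _ < k / rr n t := h3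

/-- the mean curvature stays large -/
private theorem hs_large (hFZP : StFZP) (hEVF : StEVF) (hHNB : StHNB) (hHTR : StHTR) {n : ℕ}
    (h1n : 1 ≤ n) {M : Type} [TopologicalSpace M] [T2Space M] [CompactSpace M] [ConnectedSpace M]
    [ChartedSpace (EE n) M] [IsManifold (𝓡 n) ∞ M] {T : ℝ} {F ν : M → ℝ → EE (n + 2)}
    (hF : HFl n (Ioo 0 T) F ν) {ts b : ℝ} (hts : ts ∈ Ioo 0 T) (hb0 : 0 < b)
    (hb : ∀ q, b ≤ Hs n F ν q ts) : ∀ t ∈ Ico ts T, ∀ q, b ≤ Hs n F ν q t := by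
  intro t ht q
  have hsub : Icc ts t ⊆ Ioo 0 T := fun s hs =>
    ⟨lt_of_lt_of_le hts.1 hs.1, lt_of_le_of_lt hs.2 ht.2⟩
  have hE := hEVF n h1n M (Ioo 0 T) F ν hF
  have hH := hHTR n (n + 2) M (Ioo 0 T) F hF.mcf.toIsImmJ (Hs n F ν) (Hs n F ν) hE.1 hE.1
  have hone := hH.2.2.2 (fun _ => (1 : ℝ)) contDiffOn_const
  have hH2 := hHTR n (n + 2) M (Ioo 0 T) F hF.mcf.toIsImmJ (fun (_ : M) (_ : ℝ) => (1 : ℝ))
    (Hs n F ν) hone.1 hE.1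
  refine le_of_forall_lt fun a ha => ?_
  rcases le_or_gt a 0 with ha0 | ha0
  · -- compare with `b / 2`
    have hb2 : 0 < b / 2 := by linarith
    have key : ∀ q, ∀ s ∈ Icc ts t, b / 2 * 1 + (-1) * Hs n F ν q s < 0 := by
      refine hFZP n (n + 2) M (Ioo 0 T) F hF.mcf
        (fun q s => b / 2 * (1 : ℝ) + (-1) * Hs n F ν q s) ts t (hH2.2.1 (b / 2) (-1)).1 hsub ?_ ?_
      · intro p
        have := hb p
        show b / 2 * (1 : ℝ) + (-1) * Hs n F ν p ts < 0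
        linarith
      · intro p s hs h0 _ _
        have hsJ : s ∈ Ioo 0 T := hsub ⟨hs.1.le, hs.2⟩
        have h1 := ((hH2.2.1 (b / 2) (-1)).2 p s hsJ).2
        rw [h1, (hone.2 p s hsJ).2, (hE.2.2 p s hsJ).2.2.2.2.1]
        have hz : Hs n F ν p s = b / 2 := by
          have h0' : b / 2 * (1 : ℝ) + (-1) * Hs n F ν p s = 0 := h0
          linarith
        have hd : deriv (fun _ : ℝ => (1 : ℝ)) s = 0 := deriv_const s 1
        rw [hd, hz]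
        have h2 := (hHNB n h1n M (Ioo 0 T) F ν hF p s hsJ).1
        have hr := hF.r0 s hsJ
        have hn0 : (0 : ℝ) < n := by exact_mod_cast h1n
        have h3 : 0 < 2 * (n : ℝ) / rr n s := by positivity
        have h4 : 0 < (h2N n F p s + 2 * n / rr n s) * (b / 2) := by positivity
        linarith
    have := key q t ⟨ht.1, le_rfl⟩
    linarith
  · have key : ∀ q, ∀ s ∈ Icc ts t, a * 1 + (-1) * Hs n F ν q s < 0 := by
      refine hFZP n (n + 2) M (Ioo 0 T) F hF.mcf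
        (fun q s => a * (1 : ℝ) + (-1) * Hs n F ν q s) ts t (hH2.2.1 a (-1)).1 hsub ?_ ?_
      · intro p
        have := hb p
        show a * (1 : ℝ) + (-1) * Hs n F ν p ts < 0
        linarith
      · intro p s hs h0 _ _
        have hsJ : s ∈ Ioo 0 T := hsub ⟨hs.1.le, hs.2⟩
        have h1 := ((hH2.2.1 a (-1)).2 p s hsJ).2
        rw [h1, (hone.2 p s hsJ).2, (hE.2.2 p s hsJ).2.2.2.2.1]
        have hz : Hs n F ν p s = a := by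
          have h0' : a * (1 : ℝ) + (-1) * Hs n F ν p s = 0 := h0
          linarith
        have hd : deriv (fun _ : ℝ => (1 : ℝ)) s = 0 := deriv_const s 1
        rw [hd, hz]
        have h2 := (hHNB n h1n M (Ioo 0 T) F ν hF p s hsJ).1
        have hr := hF.r0 s hsJ
        have hn0 : (0 : ℝ) < n := by exact_mod_cast h1n
        have h3 : 0 < 2 * (n : ℝ) / rr n s := by positivity
        have h4 : 0 < (h2N n F p s + 2 * n / rr n s) * a := by positivity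
        linarith
    have := key q t ⟨ht.1, le_rfl⟩
    linarith

private theorem fcv_core (hLRG : StLRG) (hFZP : StFZP) (hEVF : StEVF) (hHNB : StHNB)
    (hHTR : StHTR) {n : ℕ} (h1n : 1 ≤ n) {M : Type} [TopologicalSpace M] [T2Space M]
    [CompactSpace M] [ConnectedSpace M] [ChartedSpace (EE n) M] [IsManifold (𝓡 n) ∞ M] {T : ℝ}
    {F ν : M → ℝ → EE (n + 2)} (hF : HFl n (Ioo 0 T) F ν) {k l t₁ B₀ B₁ r₀ : ℝ}
    (hk0 : 0 < k) (hk1 : k < 1) (hl : l = (1 - k) / 2) (hl0 : 0 < l)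
    (ht₁ : t₁ ∈ Ioo 0 T)
    (hP : ∀ t ∈ Ico t₁ T, Function.Injective (fun q => F q t) ∧ PinK n k F ν t)
    (hr : ∀ t ∈ Ioo 0 T, r₀ ≤ rr n t) (hr0 : 0 < r₀)
    (hB1 : 1 ≤ B₀) (hB : 1 ≤ l ^ 4 * (r₀ * B₀ ^ 2)) (hB01 : l ^ 2 * B₁ = B₀) (hB' : B₀ ≤ B₁)
    {ts : ℝ} (hts : ts ∈ Ico t₁ T)
    (hx : ∃ x, ∃ c : Fin n → ℝ, gn F x ts c = 1 ∧ B₁ ≤ hn F ν x ts c) :
    ∀ t ∈ Ico ts T, (∀ x, ∀ z ∈ ZS n F ν x t, l ^ 2 ≤ z) ∧
        ∀ x y, ∀ z ∈ ZS n F ν y t, ∀ c : Fin n → ℝ, gn F x t c = 1 →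
          l ^ 2 * hn F ν x t c ≤ z := by
  have hn0 : (0 : ℝ) < n := by exact_mod_cast h1n
  have hB0 : 0 < B₀ := lt_of_lt_of_le one_pos hB1
  have hl2 : 0 < l ^ 2 := pow_pos hl0 2
  have hl4 : 0 < l ^ 4 := pow_pos hl0 4
  -- the numerical condition of LRG for every `B ≥ B₀`
  have hnum : ∀ t ∈ Ioo 0 T, ∀ B, B₀ ≤ B → 1 ≤ l ^ 4 * (rr n t * B ^ 2) := by
    intro t ht B hBB
    refine hB.trans (mul_le_mul_of_nonneg_left ?_ hl4.le)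
    have h1 : B₀ ^ 2 ≤ B ^ 2 := pow_le_pow_left₀ hB0.le hBB 2
    exact mul_le_mul (hr t ht) h1 (sq_nonneg _) (hr0.le.trans (hr t ht))
  have hJ : ∀ t ∈ Ico t₁ T, t ∈ Ioo 0 T := fun t ht => ⟨lt_of_lt_of_le ht₁.1 ht.1, ht.2⟩
  have hall : ∀ t ∈ Ico t₁ T, ∀ B, B₀ ≤ B →
      (∃ x, ∃ c : Fin n → ℝ, gn F x t c = 1 ∧ B ≤ hn F ν x t c) →
      ∀ y, ∀ z ∈ ZS n F ν y t, l ^ 2 * B ≤ z := by
    intro t ht B hBB hex
    exact hLRG n h1n M (Ioo 0 T) F ν hF t (hJ t ht) (hP t ht).1 k l B hk0 hk1 hl (hP t ht).2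
      (lt_of_lt_of_le hB0 hBB) (hnum t (hJ t ht) B hBB) hex
  have hmem : ∀ (y : M) (t : ℝ) (c : Fin n → ℝ), gn F y t c = 1 →
      hn F ν y t c ∈ ZS n F ν y t := fun y t c hc => Or.inr ⟨c, hc, rfl⟩
  -- at time `ts`
  have hts1 : ∀ q, n * B₀ ≤ Hs n F ν q ts := by
    intro q
    refine (hHNB n h1n M (Ioo 0 T) F ν hF q ts (hJ ts hts)).2.2.2.2.2.1 B₀ ?_
    intro c hc
    rw [← hB01]
    exact hall ts hts B₁ hB' hx q _ (hmem q ts c hc)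
  have hH := hs_large hFZP hEVF hHNB hHTR h1n hF (hJ ts hts) (mul_pos hn0 hB0) hts1
  intro t ht
  have ht' : t ∈ Ico t₁ T := ⟨hts.1.trans ht.1, ht.2⟩
  have h1 : ∀ x, ∀ z ∈ ZS n F ν x t, l ^ 2 * B₀ ≤ z := by
    refine hall t ht' B₀ le_rfl ?_
    obtain ⟨x₀, _, _, _⟩ := hx
    obtain ⟨c, hc, hcc⟩ := (hHNB n h1n M (Ioo 0 T) F ν hF x₀ t (hJ t ht')).2.2.2.2.1
    refine ⟨x₀, c, hc, ?_⟩
    have h2 := hH t ht x₀
    have h3 : (n : ℝ) * B₀ ≤ n * hn F ν x₀ t c := h2.trans hcc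
    exact le_of_mul_le_mul_left h3 hn0
  refine ⟨?_, ?_⟩
  · intro x z hz
    refine le_trans ?_ (h1 x z hz)
    calc l ^ 2 = l ^ 2 * 1 := (mul_one _).symm
      _ ≤ l ^ 2 * B₀ := mul_le_mul_of_nonneg_left hB1 hl2.le
  · intro x y z hz c hc
    rcases le_or_gt B₀ (hn F ν x t c) with h2 | h2
    · exact hall t ht' _ h2 ⟨x, c, hc, le_rfl⟩ y z hz
    · exact (mul_le_mul_of_nonneg_left h2.le hl2.le).trans (h1 y z hz)

theorem hFCV (hLRG : StLRG) (hNEG : StNEG) (hFZP : StFZP) (hEVF : StEVF) (hHNB : StHNB)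
    (hHTR : StHTR) : StFCV := by
  intro n h1n M _ _ _ _ _ _ T F ν hF hT k t₁ hk0 hk1 ht₁ hP hAA
  have hn0 : (0 : ℝ) < n := by exact_mod_cast h1n
  set r₀ : ℝ := 1 - 2 * n * T with hr₀
  have hr0 : 0 < r₀ := by rw [hr₀]; linarith
  have hr : ∀ t ∈ Ioo 0 T, r₀ ≤ rr n t := by
    intro t ht
    have h1 : (2 * (n : ℝ)) * t ≤ (2 * n) * T := mul_le_mul_of_nonneg_left ht.2.le (by positivity)
    rw [hr₀]
    unfold rr
    linarith
  obtain ⟨l, hl⟩ : ∃ l : ℝ, l = (1 - k) / 2 := ⟨_, rfl⟩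
  have hl0 : 0 < l := by rw [hl]; linarith
  have hl1 : l < 1 := by rw [hl]; linarith
  have hl2 : 0 < l ^ 2 := pow_pos hl0 2
  have hl21 : l ^ 2 < 1 := pow_lt_one₀ hl0.le hl1 two_ne_zero
  have hl4 : 0 < l ^ 4 := pow_pos hl0 4
  obtain ⟨B₀, hB₀⟩ : ∃ B₀ : ℝ, B₀ = 1 / (l ^ 4 * r₀) + 1 := ⟨_, rfl⟩
  have hlr : 0 < l ^ 4 * r₀ := mul_pos hl4 hr0
  have hq : 0 < 1 / (l ^ 4 * r₀) := one_div_pos.2 hlr
  have hB1 : 1 ≤ B₀ := by rw [hB₀]; linarith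
  have hB : 1 ≤ l ^ 4 * (r₀ * B₀ ^ 2) := by
    have h1 : 1 ≤ l ^ 4 * r₀ * B₀ := by
      rw [hB₀, mul_add, mul_one_div_cancel hlr.ne']
      linarith
    calc (1 : ℝ) = 1 * 1 := (one_mul 1).symm
      _ ≤ l ^ 4 * r₀ * B₀ * B₀ := mul_le_mul h1 hB1 zero_le_one (by linarith)
      _ = l ^ 4 * (r₀ * B₀ ^ 2) := by ring
  obtain ⟨B₁, hB₁⟩ : ∃ B₁ : ℝ, B₁ = B₀ / l ^ 2 := ⟨_, rfl⟩
  have hB01 : l ^ 2 * B₁ = B₀ := by rw [hB₁, mul_div_cancel₀ _ hl2.ne']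
  have hB0 : 0 < B₀ := lt_of_lt_of_le one_pos hB1
  have hB1' : 0 < B₁ := by rw [hB₁]; exact div_pos hB0 hl2
  have hB' : B₀ ≤ B₁ := by
    rw [← hB01]
    calc l ^ 2 * B₁ ≤ 1 * B₁ := mul_le_mul_of_nonneg_right hl21.le hB1'.le
      _ = B₁ := one_mul _
  obtain ⟨ts, hts, hts1, q, hqC⟩ := hAA (n * B₁ ^ 2 + n / r₀) t₁ ht₁.2
  have hts' : ts ∈ Ico t₁ T := ⟨hts1.le, hts.2⟩
  have h2N' : n * B₁ ^ 2 < h2N n F q ts := by
    unfold h2N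
    have h1 : (n : ℝ) / rr n ts ≤ n / r₀ := div_le_div_of_nonneg_left hn0.le hr0 (hr ts hts)
    linarith
  obtain ⟨c, hc, hcc⟩ := (hHNB n h1n M (Ioo 0 T) F ν hF q ts hts).2.2.2.1
  have hsq : B₁ ^ 2 < hn F ν q ts c ^ 2 := by
    have h1 : (n : ℝ) * B₁ ^ 2 < n * hn F ν q ts c ^ 2 := lt_of_lt_of_le h2N' hcc
    exact lt_of_mul_lt_mul_left h1 hn0.le
  have habs : B₁ < |hn F ν q ts c| := by
    have := abs_lt_of_sq_lt_sq' (a := B₁) (b := |hn F ν q ts c|) (by rw [sq_abs]; exact hsq)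
      (abs_nonneg _)
    exact this.2
  rcases le_or_gt 0 (hn F ν q ts c) with hsg | hsg
  · rw [abs_of_nonneg hsg] at habs
    exact ⟨ν, ts, l ^ 2, Or.inl rfl, hts', hl2, hl21,
      fcv_core hLRG hFZP hEVF hHNB hHTR h1n hF hk0 hk1 hl hl0 ht₁ hP hr hr0 hB1 hB hB01 hB' hts'
        ⟨q, c, hc, habs.le⟩⟩
  · rw [abs_of_neg hsg] at habs
    have hN := hNEG n M F ν (fun q t => -ν q t) rfl
    refine ⟨fun q t => -ν q t, ts, l ^ 2, Or.inr rfl, hts', hl2, hl21,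
      fcv_core hLRG hFZP hEVF hHNB hHTR h1n (hN.1 _ hF) hk0 hk1 hl hl0 ht₁
        (fun t ht => ⟨(hP t ht).1, pinK_neg hNEG rfl (hP t ht).2⟩) hr hr0 hB1 hB hB01 hB' hts'
        ⟨q, c, hc, ?_⟩⟩
    rw [(hN.2.2 q ts).2.2 c]
    exact habs.le

end Helper94.HSF
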