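import Pool.Agent.Helper35.HSF.StB

/-! Module HHY of the project HSF: a flow at one time is a hypersurface. -/

set_option autoImplicit false

namespace Helper94.HSF

open Helper35.HSF Helper35.MS Helper35.PI Helper35.PI2 Helper32.CL
open scoped ContDiff Manifold Topology ENNReal BigOperators
open MeasureTheory Set Filter

/-- restriction of a smooth map on `M × J` to one time -/
private theorem restr {n N : ℕ} {M : Type} [TopologicalSpace M] [ChartedSpace (EE n) M]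
    {J : Set ℝ} {G : M → ℝ → EE N}
    (h : ContMDiffOn ((𝓡 n).prod 𝓘(ℝ, ℝ)) 𝓘(ℝ, EE N) ∞ (fun z : M × ℝ => G z.1 z.2) (univ ×ˢ J))
    {t : ℝ} (ht : t ∈ J) : ContMDiff (𝓡 n) 𝓘(ℝ, EE N) ∞ (fun q => G q t) := by
  have h1 : ContMDiff (𝓡 n) ((𝓡 n).prod 𝓘(ℝ, ℝ)) ∞ (fun q : M => ((q, t) : M × ℝ)) :=
    contMDiff_id.prodMk contMDiff_const
  have h2 : ContMDiffOn (𝓡 n) 𝓘(ℝ, EE N) ∞
      ((fun z : M × ℝ => G z.1 z.2) ∘ fun q : M => ((q, t) : M × ℝ)) univ :=
    h.comp h1.contMDiffOn (fun q _ => ⟨mem_univ _, ht⟩)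
  exact contMDiffOn_univ.1 h2

theorem hHHY : StHHY := by
  intro n M _ _ _ J F ν h t ht
  refine ⟨Real.sqrt_pos.2 (h.r0 t ht), ?_, ?_, ?_, ?_, ?_, ?_, ?_⟩
  · exact restr h.mcf.smooth ht
  · exact restr h.sν ht
  · exact fun q => h.mcf.imm q t ht
  · intro q
    rw [← h.sph q t ht, Real.sqrt_sq (norm_nonneg _)]
  · exact fun q => h.nν q t ht
  · exact fun q => h.Fν q t ht
  · exact fun q v hv => h.tν q t ht v hv

end Helper94.HSF
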